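import Pool.Agent.Y195.LM.Stm2

/-!
# A product of two mean zero periodic functions: the necessary condition for the signs
-/

set_option autoImplicit false

open MeasureTheory Set Filter Topology
open scoped Real

namespace Pool.Agent.Y419.LM

open Pool.Agent.Y195.LM

theorem per_int {f : ℝ → ℝ} (hp : ∀ θ, f (θ + 2 * π) = f θ)
    (h0 : ∫ θ in (0)..(2 * π), f θ = 0) (z : ℝ) : ∫ θ in z..(z + 2 * π), f θ = 0 := by
  have h1 := Function.Periodic.intervalIntegral_add_eq (f := f) (T := 2 * π) hp z 0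
  rw [zero_add] at h1
  rw [h1, h0]

theorem no_pos {f : ℝ → ℝ} (hf : Continuous f) (hp : ∀ θ, f (θ + 2 * π) = f θ)
    (h0 : ∫ θ in (0)..(2 * π), f θ = 0) (z : ℝ) (h : ∀ t ∈ Ioc z (z + 2 * π), 0 ≤ f t)
    (hex : ∃ t ∈ Icc z (z + 2 * π), 0 < f t) : False := by
  have h1 := intervalIntegral.integral_pos (by linarith [Real.two_pi_pos]) hf.continuousOn h hex
  rw [per_int hp h0 z] at h1
  exact lt_irrefl _ h1

theorem neg_hyp {f : ℝ → ℝ} (hp : ∀ θ, f (θ + 2 * π) = f θ)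
    (h0 : ∫ θ in (0)..(2 * π), f θ = 0) : (∀ θ, (fun t => -f t) (θ + 2 * π) = (fun t => -f t) θ) ∧
      ∫ θ in (0)..(2 * π), (fun t => -f t) θ = 0 := by
  refine ⟨fun θ => by simp only [hp], ?_⟩
  rw [intervalIntegral.integral_neg, h0, neg_zero]

/-- it takes a negative value -/
theorem ex_neg {f : ℝ → ℝ} (hf : Continuous f) (hp : ∀ θ, f (θ + 2 * π) = f θ)
    (h0 : ∫ θ in (0)..(2 * π), f θ = 0) (hne : ∃ t, f t ≠ 0) : ∃ t, f t < 0 := by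
  by_contra hcon
  push Not at hcon
  obtain ⟨t, ht⟩ := hne
  refine no_pos hf hp h0 t (fun s _ => hcon s) ⟨t, ⟨le_rfl, by linarith [Real.two_pi_pos]⟩, ?_⟩
  exact lt_of_le_of_ne (hcon t) (Ne.symm ht)

theorem ex_pos {f : ℝ → ℝ} (hf : Continuous f) (hp : ∀ θ, f (θ + 2 * π) = f θ)
    (h0 : ∫ θ in (0)..(2 * π), f θ = 0) (hne : ∃ t, f t ≠ 0) : ∃ t, 0 < f t := by
  obtain ⟨h1, h2⟩ := neg_hyp hp h0
  obtain ⟨t, ht⟩ := ex_neg hf.neg h1 h2 (by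
    obtain ⟨t, ht⟩ := hne
    exact ⟨t, neg_ne_zero.2 ht⟩)
  exact ⟨t, by simpa using ht⟩

/-- two zeros -/
theorem ex_zeros {f : ℝ → ℝ} (hf : Continuous f) (hp : ∀ θ, f (θ + 2 * π) = f θ)
    (h0 : ∫ θ in (0)..(2 * π), f θ = 0) (hne : ∃ t, f t ≠ 0) :
    ∃ x y, x < y ∧ y < x + 2 * π ∧ f x = 0 ∧ f y = 0 := by
  obtain ⟨p, hpos⟩ := ex_pos hf hp h0 hne
  obtain ⟨q, hneg⟩ := ex_neg hf hp h0 hne
  obtain ⟨q', ⟨hq1, hq2⟩, hqq⟩ := Function.Periodic.exists_mem_Ico (f := f) (c := 2 * π) hp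
    Real.two_pi_pos q p
  rw [hqq] at hneg
  have hpq : p < q' := by
    refine lt_of_le_of_ne hq1 fun h => ?_
    rw [h] at hpos
    linarith
  obtain ⟨x, ⟨hx1, hx2⟩, hx⟩ := intermediate_value_Ioo' hpq.le hf.continuousOn
    (show (0 : ℝ) ∈ Ioo (f q') (f p) from ⟨hneg, hpos⟩)
  obtain ⟨y, ⟨hy1, hy2⟩, hy⟩ := intermediate_value_Ioo hq2.le hf.continuousOn
    (show (0 : ℝ) ∈ Ioo (f q') (f (p + 2 * π)) from ⟨hneg, by rwa [hp]⟩)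
  exact ⟨x, y, by linarith, by linarith, hx, hy⟩

theorem sgn {f : ℝ → ℝ} (hf : Continuous f) {x y : ℝ} (h : ∀ t ∈ Ioo x y, f t ≠ 0) {m : ℝ}
    (hm : m ∈ Ioo x y) (hpos : 0 < f m) : ∀ t ∈ Ioo x y, 0 < f t := by
  intro t ht
  by_contra hcon
  obtain ⟨u, hu, hu0⟩ := isPreconnected_Ioo.intermediate_value ht hm hf.continuousOn
    (show (0 : ℝ) ∈ Icc (f t) (f m) from ⟨not_lt.1 hcon, hpos.le⟩)
  exact h u hu hu0

theorem cls {f : ℝ → ℝ} (hf : Continuous f) {x y : ℝ} (hxy : x < y)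
    (h : ∀ t ∈ Ioo x y, 0 < f t) : ∀ t ∈ Icc x y, 0 ≤ f t := by
  have h1 : closure (Ioo x y) ⊆ {t | 0 ≤ f t} :=
    (isClosed_le continuous_const hf).closure_subset_iff.2 fun t ht => (h t ht).le
  rw [closure_Ioo hxy.ne] at h1
  exact h1

/-- the signs on two arcs without zeros are not both positive -/
theorem arcs {f : ℝ → ℝ} (hf : Continuous f) (hp : ∀ θ, f (θ + 2 * π) = f θ)
    (h0 : ∫ θ in (0)..(2 * π), f θ = 0) {x y m m' : ℝ} (hxy : x < y) (hyx : y < x + 2 * π)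
    (h1 : ∀ t ∈ Ioo x y, f t ≠ 0) (h2 : ∀ t ∈ Ioo y (x + 2 * π), f t ≠ 0)
    (hm : m ∈ Ioo x y) (hm' : m' ∈ Ioo y (x + 2 * π)) (p1 : 0 < f m) (p2 : 0 < f m') : False := by
  have h3 := cls hf hxy (sgn hf h1 hm p1)
  have h4 := cls hf hyx (sgn hf h2 hm' p2)
  refine no_pos hf hp h0 x (fun t ht => ?_) ⟨m, ⟨hm.1.le, (hm.2.trans hyx).le⟩, p1⟩
  rcases le_total t y with h | h
  · exact h3 t ⟨ht.1.le, h⟩
  · exact h4 t ⟨h, ht.2⟩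

theorem arcs' {f : ℝ → ℝ} (hf : Continuous f) (hp : ∀ θ, f (θ + 2 * π) = f θ)
    (h0 : ∫ θ in (0)..(2 * π), f θ = 0) {x y m m' : ℝ} (hxy : x < y) (hyx : y < x + 2 * π)
    (h1 : ∀ t ∈ Ioo x y, f t ≠ 0) (h2 : ∀ t ∈ Ioo y (x + 2 * π), f t ≠ 0)
    (hm : m ∈ Ioo x y) (hm' : m' ∈ Ioo y (x + 2 * π)) : f m * f m' < 0 := by
  rcases lt_or_gt_of_ne (h1 m hm) with a1 | a1 <;> rcases lt_or_gt_of_ne (h2 m' hm') with a2 | a2
  · exfalso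
    obtain ⟨n1, n2⟩ := neg_hyp hp h0
    exact arcs hf.neg n1 n2 hxy hyx (fun t ht => neg_ne_zero.2 (h1 t ht))
      (fun t ht => neg_ne_zero.2 (h2 t ht)) hm hm' (by simpa using a1) (by simpa using a2)
  · exact mul_neg_of_neg_of_pos a1 a2
  · exact mul_neg_of_pos_of_neg a1 a2
  · exact (arcs hf hp h0 hxy hyx h1 h2 hm hm' a1 a2).elim

/-- the case of a nonnegative first arc -/
theorem core {K a c : ℝ → ℝ} (ha : Continuous a) (hc : Continuous c)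
    (pa : ∀ θ, a (θ + 2 * π) = a θ) (pc : ∀ θ, c (θ + 2 * π) = c θ) (hK : ∀ θ, K θ = a θ * c θ)
    (hd : ∀ x y : ℝ, x < y → ∃ t ∈ Ioo x y, K t ≠ 0)
    (ia : ∫ θ in (0)..(2 * π), a θ = 0) (ic : ∫ θ in (0)..(2 * π), c θ = 0)
    (hn : ¬ Cross K) {x y : ℝ} (hxy : x < y) (hyx : y < x + 2 * π) (hx : K x = 0) (hy : K y = 0)
    (h1 : ∀ t ∈ Icc x y, 0 ≤ K t) (h2 : ∀ t ∈ Icc y (x + 2 * π), K t ≤ 0) : False := by
  have pK : ∀ θ, K (θ + 2 * π) = K θ := fun θ => by rw [hK, hK, pa, pc]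
  have two := Real.two_pi_pos
  have key : ∀ u v : ℝ, u < v → v < u + 2 * π → K u = 0 → K v = 0 →
      ((∀ t ∈ Icc u v, 0 ≤ K t) ∧ ∀ t ∈ Icc v (u + 2 * π), K t ≤ 0) ∨
        ((∀ t ∈ Icc u v, K t ≤ 0) ∧ ∀ t ∈ Icc v (u + 2 * π), 0 ≤ K t) := by
    intro u v a1 a2 a3 a4
    by_contra hcon
    rw [not_or] at hcon
    exact hn ⟨u, v, a1, a2, a3, a4, hcon.1, hcon.2⟩
  have z1 : ∀ w ∈ Ioo x y, K w ≠ 0 := by
    rintro w ⟨hw1, hw2⟩ hw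
    rcases key w y hw2 (by linarith) hw hy with ⟨g1, g2⟩ | ⟨g1, g2⟩
    · obtain ⟨t, ⟨ht1, ht2⟩, ht⟩ := hd x w hw1
      refine ht (le_antisymm ?_ (h1 t ⟨ht1.le, by linarith⟩))
      rw [← pK t]
      exact g2 _ ⟨by linarith, by linarith⟩
    · obtain ⟨t, ⟨ht1, ht2⟩, ht⟩ := hd w y hw2
      exact ht (le_antisymm (g1 t ⟨ht1.le, ht2.le⟩) (h1 t ⟨by linarith, ht2.le⟩))
  have z2 : ∀ w ∈ Ioo y (x + 2 * π), K w ≠ 0 := by
    rintro w ⟨hw1, hw2⟩ hw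
    rcases key x w (by linarith) hw2 hx hw with ⟨g1, g2⟩ | ⟨g1, g2⟩
    · obtain ⟨t, ⟨ht1, ht2⟩, ht⟩ := hd y w hw1
      exact ht (le_antisymm (h2 t ⟨ht1.le, by linarith⟩) (g1 t ⟨by linarith, ht2.le⟩))
    · obtain ⟨t, ⟨ht1, ht2⟩, ht⟩ := hd x y hxy
      exact ht (le_antisymm (g1 t ⟨ht1.le, by linarith⟩) (h1 t ⟨ht1.le, ht2.le⟩))
  have hm : (x + y) / 2 ∈ Ioo x y := ⟨by linarith, by linarith⟩
  have hm' : (y + (x + 2 * π)) / 2 ∈ Ioo y (x + 2 * π) := ⟨by linarith, by linarith⟩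
  have s1 := arcs' ha pa ia hxy hyx (fun t ht h => z1 t ht (by rw [hK, h, zero_mul]))
    (fun t ht h => z2 t ht (by rw [hK, h, zero_mul])) hm hm'
  have s2 := arcs' hc pc ic hxy hyx (fun t ht h => z1 t ht (by rw [hK, h, mul_zero]))
    (fun t ht h => z2 t ht (by rw [hK, h, mul_zero])) hm hm'
  have s3 : 0 < K ((x + y) / 2) := lt_of_le_of_ne (h1 _ ⟨hm.1.le, hm.2.le⟩) (Ne.symm (z1 _ hm))
  have s4 : K ((y + (x + 2 * π)) / 2) < 0 :=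
    lt_of_le_of_ne (h2 _ ⟨hm'.1.le, hm'.2.le⟩) (z2 _ hm')
  have s5 := mul_pos_of_neg_of_neg s1 s2
  have s6 := mul_neg_of_pos_of_neg s3 s4
  rw [hK, hK] at s6
  nlinarith

/-- NEC -/
theorem t : S_NEC := by
  intro K a c ha hc pa pc hK hdense ia ic
  by_contra hn
  have pK : ∀ θ, K (θ + 2 * π) = K θ := fun θ => by rw [hK, hK, pa, pc]
  have hd : ∀ x y : ℝ, x < y → ∃ t ∈ Ioo x y, K t ≠ 0 := by
    intro x y hxy
    obtain ⟨t, ht1, ht2⟩ := hdense.inter_open_nonempty (Ioo x y) isOpen_Ioo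
      ⟨(x + y) / 2, by constructor <;> linarith⟩
    exact ⟨t, ht1, ht2⟩
  obtain ⟨s, -, hs⟩ := hd 0 1 one_pos
  obtain ⟨x, y, hxy, hyx, hx, hy⟩ := ex_zeros ha pa ia ⟨s, fun h => hs (by rw [hK, h, zero_mul])⟩
  have kx : K x = 0 := by rw [hK, hx, zero_mul]
  have ky : K y = 0 := by rw [hK, hy, zero_mul]
  by_cases h1 : (∀ t ∈ Icc x y, 0 ≤ K t) ∧ ∀ t ∈ Icc y (x + 2 * π), K t ≤ 0
  · exact core ha hc pa pc hK hd ia ic hn hxy hyx kx ky h1.1 h1.2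
  by_cases h2 : (∀ t ∈ Icc x y, K t ≤ 0) ∧ ∀ t ∈ Icc y (x + 2 * π), 0 ≤ K t
  · refine core ha hc pa pc hK hd ia ic hn hyx (by linarith) ky (by rw [pK, kx]) h2.2 ?_
    rintro t ⟨ht1, ht2⟩
    have h3 := h2.1 (t - 2 * π) ⟨by linarith, by linarith⟩
    rwa [← pK, sub_add_cancel] at h3
  · exact hn ⟨x, y, hxy, hyx, kx, ky, h1, h2⟩

end Pool.Agent.Y419.LM
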